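import Pool.Agent.Run7.h547.KM.Iface

/-! Piece COHN of the project KM. -/

set_option autoImplicit false

universe u

namespace Pool.Agent.Run7.h547.KM

section Abstract

theorem two_zero (k : Type u) [Field k] [CharZero k] {M : Type u} [AddCommGroup M] [Module k M]
    {x : M} (h : x = -x) : x = 0 := by
  have h1 : (2 : k) • x = 0 := by
    rw [two_smul]
    nth_rewrite 1 [h]
    exact neg_add_cancel x
  exact (smul_eq_zero.1 h1).resolve_left two_ne_zero

variable {M : Type u} [AddCommGroup M] {f : List (Fin 3) → M} {n : ℕ}

theorem rot (h1 : ∀ i u, (i :: u).length = n → f (i :: u) = - f (u ++ [i])) :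
    ∀ u v : List (Fin 3), (u ++ v).length = n → f (u ++ v) = (-1 : ℤ) ^ u.length • f (v ++ u) := by
  intro u
  induction u with
  | nil => intro v _; simp
  | cons i u ih =>
    intro v hl
    rw [List.cons_append, h1 i (u ++ v) hl, List.append_assoc,
      ih (v ++ [i]) (by simp only [List.length_append, List.length_cons, List.length_nil] at hl ⊢; omega),
      List.length_cons, pow_succ, mul_neg_one, neg_smul, List.append_assoc]
    rfl

theorem sw (h1 : ∀ i u, (i :: u).length = n → f (i :: u) = - f (u ++ [i]))
    (h2 : ∀ i j u, (i :: j :: u).length = n → f (i :: j :: u) = - f (j :: i :: u))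
    (p : List (Fin 3)) (i j : Fin 3) (v : List (Fin 3)) (hl : (p ++ i :: j :: v).length = n) :
    f (p ++ i :: j :: v) = - f (p ++ j :: i :: v) := by
  have hl' : (p ++ j :: i :: v).length = n := by
    simp only [List.length_append, List.length_cons] at hl ⊢; omega
  rw [rot h1 p _ hl, rot h1 p _ hl', List.cons_append, List.cons_append, List.cons_append,
    List.cons_append, h2 i j (v ++ p) (by
      simp only [List.length_append, List.length_cons] at hl ⊢; omega), smul_neg]

theorem mv (h1 : ∀ i u, (i :: u).length = n → f (i :: u) = - f (u ++ [i]))
    (h2 : ∀ i j u, (i :: j :: u).length = n → f (i :: j :: u) = - f (j :: i :: u))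
    (i : Fin 3) (r : List (Fin 3)) : ∀ q p : List (Fin 3), (p ++ i :: (q ++ r)).length = n →
      f (p ++ i :: (q ++ r)) = (-1 : ℤ) ^ q.length • f (p ++ q ++ i :: r) := by
  intro q
  induction q with
  | nil => intro p _; simp
  | cons j q ih =>
    intro p hl
    rw [List.cons_append, sw h1 h2 p i j (q ++ r) hl]
    have e : p ++ j :: i :: (q ++ r) = (p ++ [j]) ++ i :: (q ++ r) := by simp
    rw [e, ih (p ++ [j]) (by
      simp only [List.length_append, List.length_cons, List.length_nil] at hl ⊢; omega),
      List.length_cons, pow_succ, mul_neg_one, neg_smul]
    congr 3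
    simp

theorem dup : ∀ w : List (Fin 3), ¬ w.Nodup →
    ∃ (p : List (Fin 3)) (i : Fin 3) (q r : List (Fin 3)), w = p ++ i :: (q ++ i :: r) := by
  intro w
  induction w with
  | nil => intro h; exact absurd List.nodup_nil h
  | cons a w ih =>
    intro h
    by_cases ha : a ∈ w
    · obtain ⟨q, r, rfl⟩ := List.append_of_mem ha
      exact ⟨[], a, q, r, rfl⟩
    · have : ¬ w.Nodup := fun hw => h (List.nodup_cons.2 ⟨ha, hw⟩)
      obtain ⟨p, i, q, r, rfl⟩ := ih this
      exact ⟨a :: p, i, q, r, rfl⟩

theorem all_zero (k : Type u) [Field k] [CharZero k] {M : Type u} [AddCommGroup M] [Module k M]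
    {f : List (Fin 3) → M} {n : ℕ} (hn : 3 ≤ n)
    (h1 : ∀ i u, (i :: u).length = n → f (i :: u) = - f (u ++ [i]))
    (h2 : ∀ i j u, (i :: j :: u).length = n → f (i :: j :: u) = - f (j :: i :: u))
    (w : List (Fin 3)) (hw : w.length = n) : f w = 0 := by
  by_cases h4 : n = 3
  · subst h4
    cases w with
    | nil => simp at hw
    | cons i u =>
      have e1 := h1 i u hw
      have hu : u.length = 2 := by simpa using hw
      have e2 := mv h1 h2 i [] u [] (by simpa using hw)
      simp only [List.append_nil, List.nil_append, hu] at e2
      have e3 : f (i :: u) = f (u ++ [i]) := by simpa using e2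
      refine two_zero k ?_
      nth_rewrite 1 [e1]
      rw [e3]
  · have hnd : ¬ w.Nodup := by
      intro h
      have := h.length_le_card
      simp at this
      omega
    obtain ⟨p, i, q, r, rfl⟩ := dup w hnd
    rw [mv h1 h2 i (i :: r) q p hw]
    have e := sw h1 h2 (p ++ q) i i r (by
      simp only [List.length_append, List.length_cons] at hw ⊢; omega)
    rw [two_zero k e, smul_zero]

end Abstract

theorem WW_append (k : Type u) [Field k] (u v : List (Fin 3)) :
    WW k (u ++ v) = WW k u * WW k v := by
  rw [WW, WW, WW, MonoidAlgebra.single_mul_single, mul_one]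
  rfl

theorem t_COHN : S_COHN.{u} := by
  intro k _ _ J hJ1 hJ
  have main : ∀ n : ℕ, ∀ w : List (Fin 3), w ≠ [] → w.length = n →
      WW k w + WW k w.reverse ∈ J n := by
    intro n
    induction n using Nat.strong_induction_on with
    | _ n ih =>
      intro w hw hn
      have hS : ∀ u : List (Fin 3), u ≠ [] → u.length < n →
          WW k u + WW k u.reverse ∈ J u.length := fun u hu hun => ih u.length hun u hu rfl
      by_cases hn3 : 3 ≤ n
      · -- the quotient
        have h1' : ∀ (i : Fin 3) (u : List (Fin 3)), u ≠ [] →
            (WW k (i :: u) + WW k (i :: u).reverse) + (WW k (u ++ [i]) + WW k (u ++ [i]).reverse) =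
            WW k [i] * (WW k u + WW k u.reverse) + (WW k u + WW k u.reverse) * WW k [i] := by
          intro i u _
          have e1 : WW k (i :: u) = WW k [i] * WW k u := WW_append k [i] u
          have e2 : WW k (i :: u).reverse = WW k u.reverse * WW k [i] := by
            rw [List.reverse_cons, WW_append]
          have e3 : WW k (u ++ [i]).reverse = WW k [i] * WW k u.reverse := by
            rw [List.reverse_append, List.reverse_singleton, WW_append]
          rw [e1, e2, e3, WW_append]
          noncomm_ring
        have h2' : ∀ (i j : Fin 3) (u : List (Fin 3)),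
            (WW k (i :: j :: u) + WW k (i :: j :: u).reverse) +
            (WW k (j :: i :: u) + WW k (j :: i :: u).reverse) +
            (WW k (u ++ [i] ++ [j]) + WW k (u ++ [i] ++ [j]).reverse) +
            (WW k (u ++ [j] ++ [i]) + WW k (u ++ [j] ++ [i]).reverse) =
            (WW k [i, j] + WW k [i, j].reverse) * (WW k u + WW k u.reverse) +
              (WW k u + WW k u.reverse) * (WW k [i, j] + WW k [i, j].reverse) := by
          intro i j u
          have e0 : ∀ i j : Fin 3, WW k [i, j] = WW k [i] * WW k [j] := fun i j =>
            WW_append k [i] [j]
          have e1 : ∀ i j : Fin 3, WW k (i :: j :: u) = WW k [i] * WW k [j] * WW k u := by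
            intro i j
            rw [← e0]
            exact WW_append k [i, j] u
          have e2 : ∀ i j : Fin 3, WW k (i :: j :: u).reverse =
              WW k u.reverse * WW k [j] * WW k [i] := by
            intro i j
            rw [List.reverse_cons, List.reverse_cons, WW_append, WW_append]
          have e3 : ∀ i j : Fin 3, WW k (u ++ [i] ++ [j]).reverse =
              WW k [j] * WW k [i] * WW k u.reverse := by
            intro i j
            rw [List.reverse_append, List.reverse_append, List.reverse_singleton,
              List.reverse_singleton, WW_append, WW_append, mul_assoc]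
          have e4 : ([i, j] : List (Fin 3)).reverse = [j, i] := rfl
          rw [e1, e1, e2, e2, e3, e3, e4, e0, e0]
          simp only [WW_append]
          noncomm_ring
        have h1 : ∀ i u, (i :: u).length = n →
            (J n).mkQ (WW k (i :: u) + WW k (i :: u).reverse) =
              - (J n).mkQ (WW k (u ++ [i]) + WW k (u ++ [i]).reverse) := by
          intro i u hl
          have hu : u ≠ [] := by
            rintro rfl
            simp at hl
            omega
          have hul : u.length < n := by
            rw [List.length_cons] at hl
            omega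
          have e := h1' i u hu
          have hm := hJ 1 u.length _ _ (hJ1 i) (hS u hu hul)
          rw [← e] at hm
          have hl2 : 1 + u.length = n := by
            rw [List.length_cons] at hl
            omega
          rw [hl2] at hm
          rw [eq_neg_iff_add_eq_zero, ← map_add]
          exact (Submodule.Quotient.mk_eq_zero (J n)).2 hm
        have h2 : ∀ i j u, (i :: j :: u).length = n →
            (J n).mkQ (WW k (i :: j :: u) + WW k (i :: j :: u).reverse) =
              - (J n).mkQ (WW k (j :: i :: u) + WW k (j :: i :: u).reverse) := by
          intro i j u hl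
          have hl3 : u.length + 2 = n := by
            simpa using hl
          have hu : u ≠ [] := by
            rintro rfl
            simp at hl3
            omega
          have hul : u.length < n := by omega
          have hm := hJ 2 u.length _ _ (hS [i, j] (by simp) (by simp; omega)) (hS u hu hul)
          rw [← h2' i j u] at hm
          rw [show 2 + u.length = n by omega] at hm
          have hq := (Submodule.Quotient.mk_eq_zero (J n)).2 hm
          have r1 : ∀ i j : Fin 3, (J n).mkQ (WW k (i :: j :: u) + WW k (i :: j :: u).reverse) =
              (J n).mkQ (WW k (u ++ [i] ++ [j]) + WW k (u ++ [i] ++ [j]).reverse) := by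
            intro i j
            have a1 := h1 i (j :: u) (by simp; omega)
            have a2 := h1 j (u ++ [i]) (by simp; omega)
            rw [a1]
            rw [List.cons_append, a2, neg_neg]
          have hq2 : (J n).mkQ (WW k (i :: j :: u) + WW k (i :: j :: u).reverse) +
              (J n).mkQ (WW k (j :: i :: u) + WW k (j :: i :: u).reverse) +
              (J n).mkQ (WW k (u ++ [i] ++ [j]) + WW k (u ++ [i] ++ [j]).reverse) +
              (J n).mkQ (WW k (u ++ [j] ++ [i]) + WW k (u ++ [j] ++ [i]).reverse) = 0 := by
            rw [← map_add, ← map_add, ← map_add]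
            exact hq
          rw [← r1 i j, ← r1 j i] at hq2
          have h2x : (2 : k) • ((J n).mkQ (WW k (i :: j :: u) + WW k (i :: j :: u).reverse) +
              (J n).mkQ (WW k (j :: i :: u) + WW k (j :: i :: u).reverse)) = 0 := by
            rw [two_smul, ← hq2]
            abel
          have h3x := (smul_eq_zero.1 h2x).resolve_left two_ne_zero
          exact eq_neg_of_add_eq_zero_left h3x
        have hz := all_zero k (f := fun w => (J n).mkQ (WW k w + WW k w.reverse)) hn3 h1 h2 w hn
        exact (Submodule.Quotient.mk_eq_zero (J n)).1 hz
      · match w, hw, hn with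
        | [], hw, _ => exact absurd rfl hw
        | [i], _, hn =>
          have : n = 1 := by simpa using hn.symm
          subst this
          exact (J 1).add_mem (hJ1 i) (hJ1 i)
        | [i, j], _, hn =>
          have : n = 2 := by simpa using hn.symm
          subst this
          have h := hJ 1 1 _ _ (hJ1 i) (hJ1 j)
          rw [← WW_append, ← WW_append] at h
          exact h
        | i :: j :: l :: u, _, hn =>
          exfalso
          simp at hn
          omega
  intro w hw
  exact main w.length w hw rfl

end Pool.Agent.Run7.h547.KM
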