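import Pool.Agent.Run7.h547.KM.Iface

/-! Piece DIM of the project KM. -/

set_option autoImplicit false

universe u

namespace Pool.Agent.Run7.h547.KM

section

variable (k : Type u) [Field k]

/-- the free associative algebra with the product `x y + y x` -/
def JA : Type u := AA k

noncomputable instance : AddCommGroup (JA k) := inferInstanceAs (AddCommGroup (AA k))
noncomputable instance : Module k (JA k) := inferInstanceAs (Module k (AA k))

/-- the identity map -/
def toJ (x : AA k) : JA k := x
/-- the identity map -/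
def ofJ (x : JA k) : AA k := x

noncomputable instance : Mul (JA k) := ⟨fun x y => toJ k (ofJ k x * ofJ k y + ofJ k y * ofJ k x)⟩

theorem mul_def (x y : JA k) : x * y = toJ k (ofJ k x * ofJ k y + ofJ k y * ofJ k x) := rfl

noncomputable instance : NonUnitalNonAssocRing (JA k) :=
  { (inferInstance : AddCommGroup (JA k)) with
    mul := fun x y => x * y
    left_distrib := by
      intro x y z
      show ofJ k x * (ofJ k y + ofJ k z) + (ofJ k y + ofJ k z) * ofJ k x =
        (ofJ k x * ofJ k y + ofJ k y * ofJ k x) + (ofJ k x * ofJ k z + ofJ k z * ofJ k x)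
      noncomm_ring
    right_distrib := by
      intro x y z
      show (ofJ k x + ofJ k y) * ofJ k z + ofJ k z * (ofJ k x + ofJ k y) =
        (ofJ k x * ofJ k z + ofJ k z * ofJ k x) + (ofJ k y * ofJ k z + ofJ k z * ofJ k y)
      noncomm_ring
    zero_mul := by
      intro x
      show (0 : AA k) * ofJ k x + ofJ k x * 0 = 0
      simp
    mul_zero := by
      intro x
      show ofJ k x * (0 : AA k) + 0 * ofJ k x = 0
      simp }

instance : IsScalarTower k (JA k) (JA k) := ⟨by
  intro c x y
  show (c • ofJ k x) * ofJ k y + ofJ k y * (c • ofJ k x) = c • (ofJ k x * ofJ k y + ofJ k y * ofJ k x)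
  rw [smul_mul_assoc, mul_smul_comm, smul_add]⟩

instance : SMulCommClass k (JA k) (JA k) := ⟨by
  intro c x y
  show c • (ofJ k x * ofJ k y + ofJ k y * ofJ k x) = ofJ k x * (c • ofJ k y) + (c • ofJ k y) * ofJ k x
  rw [smul_mul_assoc, mul_smul_comm, smul_add]⟩

/-- the images of the generators -/
noncomputable def gJ (i : Fin 3) : JA k := toJ k (WW k [i])

/-- the homomorphism -/
noncomputable def HJ : FreeNonUnitalNonAssocAlgebra k (Fin 3) →ₗ[k] JA k :=
  (FreeNonUnitalNonAssocAlgebra.lift k (gJ k) :
      FreeNonUnitalNonAssocAlgebra k (Fin 3) →ₗ[k] JA k)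

theorem HJ_mul (x y : FreeNonUnitalNonAssocAlgebra k (Fin 3)) : HJ k (x * y) = HJ k x * HJ k y := by
  change FreeNonUnitalNonAssocAlgebra.lift k (gJ k) (x * y) = _
  rw [map_mul]
  rfl

theorem HJ_of (i : Fin 3) : HJ k (MonoidAlgebra.single (FreeMagma.of i) 1) = gJ k i :=
  FreeNonUnitalNonAssocAlgebra.lift_of_apply k (gJ k) i

theorem HJ_single_mul (u v : FreeMagma (Fin 3)) : HJ k (MonoidAlgebra.single (u * v) 1) =
    HJ k (MonoidAlgebra.single u 1) * HJ k (MonoidAlgebra.single v 1) := by
  rw [← HJ_mul, MonoidAlgebra.single_mul_single, mul_one]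

theorem jordIdeal_le : jordIdeal k ≤ LinearMap.ker (HJ k) := by
  apply sInf_le
  constructor
  · intro a x hx
    rw [LinearMap.mem_ker] at hx ⊢
    rw [HJ_mul, hx, mul_zero]
  · intro a x hx
    rw [LinearMap.mem_ker] at hx ⊢
    rw [HJ_mul, hx, zero_mul]
  · intro a b
    rw [LinearMap.mem_ker, map_sub, HJ_mul, HJ_mul, mul_def, mul_def, sub_eq_zero]
    congr 1
    exact add_comm _ _
  · intro a b
    rw [LinearMap.mem_ker, map_sub, sub_eq_zero]
    simp only [HJ_mul]
    generalize HJ k a = x
    generalize HJ k b = y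
    show (ofJ k (x * x * y)) * ofJ k x + ofJ k x * ofJ k (x * x * y) =
      ofJ k (x * x) * ofJ k (y * x) + ofJ k (y * x) * ofJ k (x * x)
    have e1 : ofJ k (x * x) = ofJ k x * ofJ k x + ofJ k x * ofJ k x := rfl
    have e2 : ofJ k (y * x) = ofJ k y * ofJ k x + ofJ k x * ofJ k y := rfl
    have e3 : ofJ k (x * x * y) = ofJ k (x * x) * ofJ k y + ofJ k y * ofJ k (x * x) := rfl
    rw [e3, e2, e1]
    noncomm_ring

/-- the map from the free Jordan algebra -/
noncomputable def GJ : Jord k →ₗ[k] JA k := (jordIdeal k).liftQ (HJ k) (jordIdeal_le k)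

theorem GJ_cls (w : FreeMagma (Fin 3)) : GJ k (cls k w) = HJ k (MonoidAlgebra.single w 1) := by
  rw [GJ, cls, Submodule.mkQ_apply, Submodule.liftQ_apply]

theorem finite_len : ∀ n : ℕ, {w : FreeMagma (Fin 3) | w.length = n}.Finite := by
  intro n
  induction n using Nat.strong_induction_on with
  | _ n ih =>
    have h : {w : FreeMagma (Fin 3) | w.length = n} ⊆ Set.range FreeMagma.of ∪
        ⋃ i : Fin n, ⋃ j : Fin n, Set.image2 (fun u v : FreeMagma (Fin 3) => u * v)
          {w | w.length = (i : ℕ)} {w | w.length = (j : ℕ)} := by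
      intro w hw
      cases w with
      | of i => exact Or.inl ⟨i, rfl⟩
      | mul u v =>
        right
        have hw' : u.length + v.length = n := hw
        have hu := u.length_pos
        have hv := v.length_pos
        exact Set.mem_iUnion.2 ⟨⟨u.length, by omega⟩, Set.mem_iUnion.2 ⟨⟨v.length, by omega⟩,
          u, rfl, v, rfl, rfl⟩⟩
    refine Set.Finite.subset (Set.Finite.union (Set.finite_range _) ?_) h
    exact Set.finite_iUnion fun i => Set.finite_iUnion fun j =>
      Set.Finite.image2 _ (ih i i.2) (ih j j.2)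

theorem finite_piece (n : ℕ) : Module.Finite k (jordPiece k n) := by
  rw [jordPiece]
  have e : {x | ∃ w : FreeMagma (Fin 3), w.length = n ∧ x = cls k w} =
      (fun w => cls k w) '' {w : FreeMagma (Fin 3) | w.length = n} := by
    ext x
    constructor
    · rintro ⟨w, hw, rfl⟩
      exact ⟨w, hw, rfl⟩
    · rintro ⟨w, hw, rfl⟩
      exact ⟨w, hw, rfl⟩
  rw [e]
  exact FiniteDimensional.span_of_finite k ((finite_len n).image _)

/-- the image of the component of degree `n` -/
noncomputable def JJ (n : ℕ) : Submodule k (AA k) := (jordPiece k n).map (GJ k)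

theorem JJ_eq (n : ℕ) : JJ k n = Submodule.span k
    {x : AA k | ∃ w : FreeMagma (Fin 3), w.length = n ∧
      x = ofJ k (HJ k (MonoidAlgebra.single w 1))} := by
  rw [JJ, jordPiece, Submodule.map_span]
  congr 1
  ext x
  constructor
  · rintro ⟨_, ⟨w, hw, rfl⟩, rfl⟩
    exact ⟨w, hw, GJ_cls k w⟩
  · rintro ⟨w, hw, rfl⟩
    exact ⟨_, ⟨w, hw, rfl⟩, GJ_cls k w⟩

theorem JJ_one (i : Fin 3) : WW k [i] ∈ JJ k 1 := by
  rw [JJ_eq]
  refine Submodule.subset_span ⟨FreeMagma.of i, rfl, ?_⟩
  rw [HJ_of]
  rfl

theorem JJ_mul (m n : ℕ) (x y : AA k) (hx : x ∈ JJ k m) (hy : y ∈ JJ k n) :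
    x * y + y * x ∈ JJ k (m + n) := by
  rw [JJ_eq] at hx hy ⊢
  induction hx using Submodule.span_induction with
  | mem x hx =>
    obtain ⟨u, hu, rfl⟩ := hx
    induction hy using Submodule.span_induction with
    | mem y hy =>
      obtain ⟨v, hv, rfl⟩ := hy
      refine Submodule.subset_span ⟨u * v, ?_, ?_⟩
      · show u.length + v.length = m + n
        rw [hu, hv]
      · rw [HJ_single_mul]
        rfl
    | zero => simp
    | add y z _ _ hy hz =>
      have e : ofJ k (HJ k (MonoidAlgebra.single u 1)) * (y + z) +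
          (y + z) * ofJ k (HJ k (MonoidAlgebra.single u 1)) =
          (ofJ k (HJ k (MonoidAlgebra.single u 1)) * y + y * ofJ k (HJ k (MonoidAlgebra.single u 1)))
          + (ofJ k (HJ k (MonoidAlgebra.single u 1)) * z +
            z * ofJ k (HJ k (MonoidAlgebra.single u 1))) := by noncomm_ring
      rw [e]
      exact Submodule.add_mem _ hy hz
    | smul c y _ hy =>
      rw [mul_smul_comm, smul_mul_assoc, ← smul_add]
      exact Submodule.smul_mem _ c hy
  | zero => simp
  | add x z _ _ hx hz =>
    have e : (x + z) * y + y * (x + z) = (x * y + y * x) + (z * y + y * z) := by noncomm_ring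
    rw [e]
    exact Submodule.add_mem _ hx hz
  | smul c x _ hx =>
    rw [mul_smul_comm, smul_mul_assoc, ← smul_add]
    exact Submodule.smul_mem _ c hx

end

theorem t_DIM (hCOHN : S_COHN.{u}) (hCOUNT : S_COUNT.{u}) : S_DIM.{u} := by
  intro k _ _ n hn
  have hfin := finite_piece k n
  have hfin2 : Module.Finite k (JJ k n) := by
    rw [JJ]
    exact Module.Finite.map (jordPiece k n) (GJ k)
  have h1 := hCOUNT k n (JJ k n) hfin2 fun w hw => by
    have h := hCOHN k (JJ k) (JJ_one k) (JJ_mul k) w (by rintro rfl; simp at hw; omega)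
    rw [hw] at h
    exact h
  have h2 : Module.finrank k (JJ k n) ≤ Module.finrank k (jordPiece k n) :=
    Submodule.finrank_map_le (GJ k) (jordPiece k n)
  rw [dimJord]
  omega

end Pool.Agent.Run7.h547.KM
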