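import Mathlib

/-!
# Project KM (helper547): the Kashuba-Mathieu formula for free Jordan algebras fails (MP_dbd475_al)

For `V = k^3` the recursion gives `a_18 = 193681917`, but the free Jordan algebra on three generators
has in degree 18 at least `3 ^ 18 / 2 = 193710244.5` dimensions (Cohn's theorem: the special Jordan
algebra on three generators consists of all symmetric elements).  So the formula is false.

Pieces: COHN, COUNT, DIM, REC, VAL.  Every piece is a closed Prop with its proof in the doc string.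
-/

set_option autoImplicit false

universe u

namespace Pool.Agent.Run7.h547.KM

/-! ## The free Jordan algebra on three generators -/

section Jord

variable (k : Type u) [Field k]

/-- A submodule of the free (non-unital) nonassociative algebra on three generators which is a
two-sided ideal and contains all `a b - b a` and all `(a² b) a - a² (b a)`. -/
structure IsJordIdeal (J : Submodule k (FreeNonUnitalNonAssocAlgebra k (Fin 3))) : Prop where
  mul_left : ∀ a x, x ∈ J → a * x ∈ J
  mul_right : ∀ a x, x ∈ J → x * a ∈ J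
  comm : ∀ a b, a * b - b * a ∈ J
  jord : ∀ a b, ((a * a) * b) * a - (a * a) * (b * a) ∈ J

/-- The smallest such ideal. -/
noncomputable def jordIdeal : Submodule k (FreeNonUnitalNonAssocAlgebra k (Fin 3)) :=
  sInf {J | IsJordIdeal k J}

/-- (The underlying space of) the free Jordan algebra on three generators. -/
abbrev Jord := FreeNonUnitalNonAssocAlgebra k (Fin 3) ⧸ jordIdeal k

/-- The class in `Jord` of a nonassociative monomial. -/
noncomputable def cls (w : FreeMagma (Fin 3)) : Jord k :=
  (jordIdeal k).mkQ (MonoidAlgebra.single w 1)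

/-- The homogeneous component of degree `n` of the free Jordan algebra. -/
noncomputable def jordPiece (n : ℕ) : Submodule k (Jord k) :=
  Submodule.span k {x | ∃ w : FreeMagma (Fin 3), w.length = n ∧ x = cls k w}

/-- Its dimension. -/
noncomputable def dimJord (n : ℕ) : ℕ := Module.finrank k (jordPiece k n)

end Jord

/-! ## Characters of `PSL₂` and the operation `λ` -/

/-- Laurent polynomials in `z`: characters of virtual `PSL₂`-modules (`z` is the positive root). -/
abbrev Lam := AddMonoidAlgebra ℤ ℤ

/-- `z ^ w` -/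
noncomputable def zz (w : ℤ) : Lam := AddMonoidAlgebra.single w 1

/-- The multiplicity of `L(2 j)` (highest weight `z ^ j`) in the virtual module with the character
`X`: the coefficient of `z ^ j` in `X (1 - z⁻¹)`. -/
noncomputable def mult (j : ℤ) (X : Lam) : ℤ := X.coeff j - X.coeff (j + 1)

/-- `1 - t ^ n z ^ w` -/
noncomputable def bin (n : ℕ) (w : ℤ) : PowerSeries Lam := 1 - PowerSeries.monomial n (zz w)

/-- `λ (t ^ n (a [L(2)] + b [L(0)]))` -/
noncomputable def factor (n a b : ℕ) : PowerSeries Lam :=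
  bin n 1 ^ a * bin n (-1) ^ a * bin n 0 ^ (a + b)

/-- The coefficient at `t ^ m` of `λ (a [L(2)] + b [L(0)])`, `a = ∑ a_n t ^ n`, `b = ∑ b_n t ^ n`; only
the factors with `n ≤ m` matter. -/
noncomputable def lamCoeff (a b : ℕ → ℕ) (m : ℕ) : Lam :=
  PowerSeries.coeff m (∏ n ∈ Finset.Icc 1 m, factor n (a n) (b n))

/-- The equations of Kashuba and Mathieu for `dim V = 3`, for the dimensions `a n`, `b n` of the
homogeneous components of degree `n ≥ 1`. -/
def IsKM (a b : ℕ → ℕ) : Prop :=
  ∀ m : ℕ, mult 0 (lamCoeff a b m) = (if m = 0 then 1 else 0) ∧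
    mult 1 (lamCoeff a b m) = if m = 1 then -3 else 0

/-! ## Cohn's theorem -/

/-- the free associative algebra on three generators -/
abbrev AA (k : Type u) [Field k] := MonoidAlgebra k (FreeMonoid (Fin 3))

/-- the word `w` -/
noncomputable def WW (k : Type u) [Field k] (w : List (Fin 3)) : AA k :=
  MonoidAlgebra.single (FreeMonoid.ofList w) 1

/-- COHN (100 lines). Cohn's theorem for three generators, with degrees.
Proof.  Write `S w = WW w + WW w.reverse`.  Strong induction on the length `n` of `w`.
`n = 1`: `S [i] = 2 WW [i]`.  `n = 2`: `S [i, j] = WW [i] * WW [j] + WW [j] * WW [i]`.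
Let `n ≥ 3`; write `x ≡ 0` for `x ∈ J n`; by the induction hypothesis and `hmul`:
(1) `S (i :: u) + S (u ++ [i]) = WW [i] * S u + S u * WW [i] ≡ 0`.
(2) `S [i, j] * S u + S u * S [i, j] = S (i :: j :: u) + S (j :: i :: u) + S (u ++ [i, j]) + S (u ++ [j, i])`
for `u ≠ []`, and two applications of (1) give `S (u ++ [i, j]) ≡ S (i :: j :: u)` (rotate: (1) for
`i :: (j :: u)` and for `j :: (u ++ [i])`), so `2 (S (i :: j :: u) + S (j :: i :: u)) ≡ 0`.
(3) By (1) `S (u ++ v) ≡ (-1) ^ |u| S (v ++ u)`, so (2) holds at every position: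
`S (u ++ i :: j :: v) + S (u ++ j :: i :: v) ≡ 0`, and moving a letter:
`S (p ++ i :: (q ++ r)) ≡ (-1) ^ |q| S (p ++ q ++ i :: r)`.
(4) `n = 3`: `S (i :: u) ≡ - S (u ++ [i])` by (1) and `S (i :: u) ≡ S (u ++ [i])` by (3) (`|u| = 2`), so
`2 S (i :: u) ≡ 0`.  (5) `n ≥ 4`: two letters of `w` are equal, `w = p ++ i :: (q ++ i :: r)`, so
`S w ≡ ± S (p ++ q ++ i :: i :: r)` and this is `≡` minus itself by (3). -/
def S_COHN : Prop := ∀ (k : Type u) [Field k] [CharZero k] (J : ℕ → Submodule k (AA k)),
  (∀ i, WW k [i] ∈ J 1) → (∀ m n x y, x ∈ J m → y ∈ J n → x * y + y * x ∈ J (m + n)) →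
  ∀ w : List (Fin 3), w ≠ [] → WW k w + WW k w.reverse ∈ J w.length

/-- COUNT (80 lines).
Proof.  Let `w ≤ w'` be a linear order on `List (Fin 3)` (lexicographic), `T` the finite set of the words
`w` of length `n` with `w ≤ w.reverse`.  Every word of length `n` is in `T` or its reverse is, so
`3 ^ n ≤ 2 * |T|` (`List.Vector` / functions `Fin n → Fin 3` have `3 ^ n` elements).  The elements
`WW w + WW w.reverse`, `w ∈ T`, are linearly independent: the coefficient of `w` in
`WW w' + WW w'.reverse` (`w, w' ∈ T`) is `0` if `w ≠ w'` (if `w = w'.reverse` then `w' = w.reverse`, so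
`w ≤ w' ≤ w`), and `1` or `2` if `w = w'`. -/
def S_COUNT : Prop := ∀ (k : Type u) [Field k] [CharZero k] (n : ℕ) (P : Submodule k (AA k)),
  Module.Finite k P → (∀ w : List (Fin 3), w.length = n → WW k w + WW k w.reverse ∈ P) →
  3 ^ n ≤ 2 * Module.finrank k P

/-- DIM (120 lines).
Proof.  Let `φ : FreeMagma (Fin 3) → AA k`, `φ (of i) = WW [i]`, `φ (u * v) = φ u * φ v + φ v * φ u`, extended to
a linear map `F` of the free nonassociative algebra (`F (x * y) = F x * F y + F y * F x`, check on
monomials).  `ker F` satisfies `IsJordIdeal` (an identity in associative algebras: with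
`x ∘ y = x y + y x`, `((x ∘ x) ∘ y) ∘ x = (x ∘ x) ∘ (y ∘ x)`, `noncomm_ring`), so `F` factors through `Jord k`;
let `G : Jord k →ₗ AA k`.  Let `J n` be the image of `jordPiece k n`, the span of the `φ w`, `w.length = n`.  It
satisfies the hypotheses of COHN, so COUNT (with `P = J n`; `jordPiece k n` is finite-dimensional because
there are finitely many `w : FreeMagma (Fin 3)` of length `n`: induction, `Set.Finite`) gives
`3 ^ n ≤ 2 * finrank (J n) ≤ 2 * finrank (jordPiece k n)`. -/
def S_DIM : Prop := ∀ (k : Type u) [Field k] [CharZero k] (n : ℕ), 1 ≤ n →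
  3 ^ n ≤ 2 * dimJord k n

/-! ## The recursion -/

/-- coefficients -/
noncomputable def cf (a b : ℕ → ℕ) (m : ℕ) (w : ℤ) : ℤ := (lamCoeff a b m).coeff w

/-- REC (120 lines).
Proof.  `D f = X * d⁄dX f` on power series over `Lam`.  For `c : Lam`, `n ≥ 1`, `u = 1 - monomial n c` and
`g = mk (fun i => if i ≠ 0 ∧ n ∣ i then c ^ (i / n) else 0)` one has `u * g = monomial n c` and
`D u = - n • monomial n c`, so `D (u ^ e) = - (e n) g u ^ e`.  Hence for `P = ∏ n ∈ Icc 1 m, factor n (a n) (b n)`:
`D P = - (∑ n ∈ Icc 1 m, n (a n (g z n + g z⁻¹ n) + (a n + b n) g 1 n)) P`.  Take the coefficient of `t ^ m`: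
`m P_m = - ∑ ..`, where the coefficients of `P` at `t ^ j`, `j ≤ m`, are `lamCoeff a b j` (the factors with
`n > j` are `1 + O (t ^ n)`), and then the coefficient of `z ^ w`. -/
def S_REC : Prop := ∀ a b : ℕ → ℕ, (∀ w, cf a b 0 w = if w = 0 then 1 else 0) ∧
  ∀ m : ℕ, 1 ≤ m → ∀ w : ℤ, (m : ℤ) * cf a b m w =
    - ∑ n ∈ Finset.Icc 1 m, ∑ d ∈ Finset.Icc 1 (m / n), (n : ℤ) *
      (a n * (cf a b (m - n * d) (w - d) + cf a b (m - n * d) (w + d)) +
        (a n + b n) * cf a b (m - n * d) w)

/-- VAL (150 lines).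
Proof.  By REC the term `n = m`, `d = 1` of the sum is
`m (a m ([w = 1] + [w = -1]) + (a m + b m) [w = 0])`, all other terms `G m w` contain only `a n`, `b n`,
`cf a b j` with `n, j < m`.  So `m * a m = - (G m 1 - G m 2) - (if m = 1 then -3 * m else 0)`,
`m * b m = - (G m 0 - G m 1)`, and `cf a b m` is determined.  Define a computable version with lists
(`ca`, `cb : List ℤ`, `cc : List (List ℤ)` with offset, `cf = 0` for `|w| > m`), show by induction that it
computes `a`, `b`, `cf` for `m ≤ 18`, and evaluate it in the kernel (`by decide` with `Int` division by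
`m`).  The values of `a`: 3, 6, 18, 45, 135, 378, 1134, 3324, 9981, 29733, 89280, 267273, 801957,
2403018, 7203942, 21582282, 64661358, 193681917; of `b`: 0, 3, 8, 33, 96, 313, 936, 2904, 8752, 26730,
80769, 244888, 739290, 2232477, 6726735, 20258463, 60937386, 183206543. -/
def S_VAL : Prop := S_REC → ∀ a b : ℕ → ℕ, IsKM a b → a 18 = 193681917

/-- the result -/
def S_MAIN : Prop := ∀ (k : Type u) [Field k] [CharZero k], ¬ ∃ b : ℕ → ℕ, IsKM (dimJord k) b

end Pool.Agent.Run7.h547.KM
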